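import Mathlib

/-!
# The group of affine operators on the functions on an abelian group
-/

open scoped commutatorElement

namespace Pool.Agent.Lib.MP_3fd305_al.Six

variable {H Λ : Type} [AddCommGroup H] [CommRing Λ]

/-- The operator `φ ↦ f + a • φ(· + h)` on functions `H → Λ`. -/
@[ext] structure Aff (H Λ : Type) [AddCommGroup H] [CommRing Λ] where
  f : H → Λ
  a : H → Λˣ
  h : H

namespace Aff

instance : Mul (Aff H Λ) :=
  ⟨fun p q => ⟨fun x => p.f x + p.a x * q.f (x + p.h), fun x => p.a x * q.a (x + p.h), p.h + q.h⟩⟩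

instance : One (Aff H Λ) := ⟨⟨fun _ => 0, fun _ => 1, 0⟩⟩

instance : Inv (Aff H Λ) :=
  ⟨fun p => ⟨fun x => -(((p.a (x - p.h))⁻¹ : Λˣ) * p.f (x - p.h)), fun x => (p.a (x - p.h))⁻¹,
    -p.h⟩⟩

@[simp] lemma mul_f (p q : Aff H Λ) (x : H) :
    (p * q).f x = p.f x + p.a x * q.f (x + p.h) := rfl
@[simp] lemma mul_a (p q : Aff H Λ) (x : H) : (p * q).a x = p.a x * q.a (x + p.h) := rfl
@[simp] lemma mul_h (p q : Aff H Λ) : (p * q).h = p.h + q.h := rfl
@[simp] lemma one_f (x : H) : (1 : Aff H Λ).f x = 0 := rfl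
@[simp] lemma one_a (x : H) : (1 : Aff H Λ).a x = 1 := rfl
@[simp] lemma one_h : (1 : Aff H Λ).h = 0 := rfl
@[simp] lemma inv_f (p : Aff H Λ) (x : H) :
    (p⁻¹).f x = -(((p.a (x - p.h))⁻¹ : Λˣ) * p.f (x - p.h)) := rfl
@[simp] lemma inv_a (p : Aff H Λ) (x : H) : (p⁻¹).a x = (p.a (x - p.h))⁻¹ := rfl
@[simp] lemma inv_h (p : Aff H Λ) : (p⁻¹).h = -p.h := rfl

instance : Group (Aff H Λ) := Group.ofLeftAxioms
  (fun p q r => by
    ext x
    · simp only [mul_f, mul_a, mul_h, Units.val_mul, add_assoc]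
      ring
    · simp only [mul_a, mul_h, Units.val_mul, add_assoc, mul_assoc]
    · simp only [mul_h, add_assoc])
  (fun p => by
    ext x
    · simp
    · simp
    · simp)
  (fun p => by
    ext x
    · simp [sub_eq_add_neg]
    · simp [sub_eq_add_neg]
    · simp)

/-- Multiplicative differences. -/
def D (h : H) (a : H → Λˣ) : H → Λˣ := fun x => a (x + h) * (a x)⁻¹

lemma D_apply (h : H) (a : H → Λˣ) (x : H) : D h a x = a (x + h) * (a x)⁻¹ := rfl

lemma D_mul (h : H) (a b : H → Λˣ) : D h (a * b) = D h a * D h b := by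
  funext x
  simp only [D_apply, Pi.mul_apply, mul_inv]
  exact mul_mul_mul_comm _ _ _ _

lemma D_inv (h : H) (a : H → Λˣ) : D h a⁻¹ = (D h a)⁻¹ := by
  funext x
  simp only [D_apply, Pi.inv_apply, mul_inv]

lemma D_one (h : H) : D h (1 : H → Λˣ) = 1 := by
  funext x
  simp [D_apply]

/-- Translation. -/
def T (k : H) (a : H → Λˣ) : H → Λˣ := fun x => a (x + k)

lemma D_T (h k : H) (a : H → Λˣ) : D h (T k a) = T k (D h a) := by
  funext x
  simp only [D_apply, T, add_right_comm]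

lemma T_one (k : H) : T k (1 : H → Λˣ) = 1 := rfl

lemma D_comm (h k : H) (a : H → Λˣ) : D h (D k a) = D k (D h a) := by
  funext x
  simp only [D_apply, mul_inv, inv_inv, add_right_comm x h k]
  exact mul_mul_mul_comm _ _ _ _

/-- The commutator of two operators: the `h`-part vanishes, and the `a`-part is given by
differences. -/
lemma comm_h (p q : Aff H Λ) : ⁅p, q⁆.h = 0 := by
  rw [commutatorElement_def]
  simp only [mul_h, inv_h]
  abel

lemma comm_a (p q : Aff H Λ) : ⁅p, q⁆.a = D p.h q.a * (D q.h p.a)⁻¹ := by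
  funext x
  rw [commutatorElement_def]
  simp only [mul_a, mul_h, inv_a, inv_h, Pi.mul_apply, Pi.inv_apply, D_apply, mul_inv, inv_inv]
  have h1 : x + (p.h + q.h) - p.h = x + q.h := by abel
  have h2 : x + (p.h + q.h + -p.h) - q.h = x := by abel
  rw [h1, h2]
  ac_rfl

lemma comm_a_of_h (p q : Aff H Λ) (hp : p.h = 0) : ⁅p, q⁆.a = (D q.h p.a)⁻¹ := by
  rw [comm_a, hp]
  have : D (0 : H) q.a = 1 := by
    funext x
    rw [D_apply, add_zero, mul_inv_cancel]
    rfl
  rw [this, one_mul]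

/-- The commutator of an operator `φ ↦ f + φ` with an operator with trivial `h`-part. -/
lemma comm_f (p q : Aff H Λ) (hp : p.h = 0) (hpa : p.a = 1) (hq : q.h = 0) (x : H) :
    ⁅p, q⁆.f x = (1 - (q.a x : Λ)) * p.f x := by
  rw [commutatorElement_def]
  simp only [mul_f, mul_a, mul_h, inv_f, inv_a, inv_h, hp, hq, hpa, Pi.one_apply]
  simp
  ring

/-- The commutator of an operator `φ ↦ f + φ` with a translation. -/
lemma comm_f' (p q : Aff H Λ) (hp : p.h = 0) (hpa : p.a = 1) (hqa : q.a = 1) (hqf : q.f = 0)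
    (x : H) : ⁅p, q⁆.f x = p.f x - p.f (x + q.h) := by
  rw [commutatorElement_def]
  simp only [mul_f, mul_a, mul_h, inv_f, inv_a, inv_h, hp, hpa, hqa, hqf, Pi.one_apply]
  simp
  ring

end Aff

end Pool.Agent.Lib.MP_3fd305_al.Six
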