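import Pool.Agent.Lib.MP_3fd305_al.Six.Fail

/-!
# The ring in which the closed chain products of length `≠ n` vanish
-/

namespace Pool.Agent.Lib.MP_3fd305_al.Six

open MvPolynomial

/-! ### Closed chain products over a ring with `4 = 0` -/

section chain

variable {R : Type*} [CommRing R]

lemma open_chain (h4 : (4 : R) = 0) (a b : ℕ → R) (ha : ∀ i, ∃ α, a i * a i = 2 * α)
    (hb : ∀ i, ∃ β, b i * b i = 2 * β) (k : ℕ) :
    ∃ α β : R, ∏ i ∈ Finset.range (k + 1), (a i * b (i + 1) - a (i + 1) * b i) =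
      a 0 * b (k + 1) * (∏ i ∈ Finset.range k, a (i + 1) * b (i + 1)) +
      (-1) ^ (k + 1) * a (k + 1) * b 0 * (∏ i ∈ Finset.range k, a (i + 1) * b (i + 1)) +
      2 * a 0 * a (k + 1) * β + 2 * b 0 * b (k + 1) * α := by
  induction k with
  | zero => exact ⟨0, 0, by simp; ring⟩
  | succ k ih =>
    obtain ⟨α, β, h⟩ := ih
    obtain ⟨α', hα'⟩ := ha (k + 1)
    obtain ⟨β', hβ'⟩ := hb (k + 1)
    rw [Finset.prod_range_succ, h]
    rw [Finset.prod_range_succ (fun i => a (i + 1) * b (i + 1)) k]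
    generalize (∏ i ∈ Finset.range k, a (i + 1) * b (i + 1)) = M
    generalize a (k + 1 + 1) = a'
    generalize b (k + 1 + 1) = b'
    generalize hs : ((-1 : R)) ^ (k + 1) = s
    have hs' : ((-1 : R)) ^ (k + 1 + 1) = -s := by rw [pow_succ, hs]; ring
    rw [hs']
    generalize ha1 : a (k + 1) = x at *
    generalize hb1 : b (k + 1) = y at *
    refine ⟨s * M * α' + x * y * α, -(M * β') - x * y * β, ?_⟩
    linear_combination (s * b 0 * M * b' + 2 * a 0 * b' * β) * hα' +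
      (-a 0 * M * a' - 2 * b 0 * a' * α) * hβ' + (a 0 * b' * β * α' - b 0 * a' * α * β') * h4

lemma closed_chain (h4 : (4 : R) = 0) (a b : ℕ → R) (ha : ∀ i, ∃ α, a i * a i = 2 * α)
    (hb : ∀ i, ∃ β, b i * b i = 2 * β) (m : ℕ) (hm : 2 ≤ m) :
    ∏ i ∈ Finset.range m, (a i * b ((i + 1) % m) - a ((i + 1) % m) * b i) =
      (1 + (-1) ^ m) * ∏ i ∈ Finset.range m, a i * b i := by
  obtain ⟨k, rfl⟩ := Nat.exists_eq_add_of_le' hm
  obtain ⟨α, β, h⟩ := open_chain h4 a b ha hb k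
  rw [Finset.prod_range_succ]
  have h1 : ∏ i ∈ Finset.range (k + 1), (a i * b ((i + 1) % (k + 2)) -
      a ((i + 1) % (k + 2)) * b i) =
      ∏ i ∈ Finset.range (k + 1), (a i * b (i + 1) - a (i + 1) * b i) := by
    refine Finset.prod_congr rfl fun i hi => ?_
    rw [Nat.mod_eq_of_lt (by have := Finset.mem_range.1 hi; omega)]
  have h2 : (k + 1 + 1) % (k + 2) = 0 := Nat.mod_self _
  rw [h1, h2, h]
  rw [Finset.prod_range_succ (fun i => a i * b i), Finset.prod_range_succ' (fun i => a i * b i)]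
  obtain ⟨α0, hα0⟩ := ha 0
  obtain ⟨β0, hβ0⟩ := hb 0
  obtain ⟨α1, hα1⟩ := ha (k + 1)
  obtain ⟨β1, hβ1⟩ := hb (k + 1)
  have hs' : ((-1 : R)) ^ (k + 2) = - (-1) ^ (k + 1) := by rw [pow_succ]; ring
  rw [hs']
  generalize ((-1 : R)) ^ (k + 1) = s
  generalize (∏ i ∈ Finset.range k, a (i + 1) * b (i + 1)) = M
  generalize a (k + 1) = x at *
  generalize b (k + 1) = y at *
  generalize a 0 = p at *
  generalize b 0 = q at *
  linear_combination (-y * y * M - 2 * x * y * β) * hα0 + (-2 * α0 * M - 2 * p * q * α) * hβ1 +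
    (s * q * q * M + 2 * p * q * β) * hα1 + (2 * s * α1 * M + 2 * x * y * α) * hβ0 +
    (-α0 * β1 * M + s * α1 * β0 * M + p * q * β * α1 - x * y * β * α0 + x * y * α * β0 -
      p * q * α * β1) * h4

end chain

end Pool.Agent.Lib.MP_3fd305_al.Six
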