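import Pool.Agent.Lib.MP_3fd305_al.Six.Law

/-!
# The closed chain word of length `n` is not a law of the test group
-/

open scoped commutatorElement

namespace Pool.Agent.Lib.MP_3fd305_al.Six

namespace Aff

/-! ### Additive polynomial functions -/

section PD

variable {H Λ : Type} [AddCommGroup H] [CommRing Λ]

/-- Additive differences. -/
def Dl (h : H) (c : H → Λ) : H → Λ := fun x => c (x + h) - c x

/-- Polynomial functions of degree less than `k`. -/
def PD : ℕ → (H → Λ) → Prop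
  | 0, c => c = 0
  | k + 1, c => ∀ h, PD k (Dl h c)

lemma Dl_add (h : H) (c d : H → Λ) : Dl h (c + d) = Dl h c + Dl h d := by
  funext x; simp only [Dl, Pi.add_apply]; ring

lemma Dl_zero (h : H) : Dl h (0 : H → Λ) = 0 := by
  funext x; simp [Dl]

lemma PD_zero (k : ℕ) : PD k (0 : H → Λ) := by
  induction k with
  | zero => rfl
  | succ k ih => intro h; rw [Dl_zero]; exact ih

lemma PD.add {k : ℕ} : ∀ {c d : H → Λ}, PD k c → PD k d → PD k (c + d) := by
  induction k with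
  | zero =>
    intro c d hc hd
    change c = 0 at hc
    change d = 0 at hd
    change c + d = 0
    rw [hc, hd, add_zero]
  | succ k ih => intro c d hc hd h; rw [Dl_add]; exact ih (hc h) (hd h)

lemma PD_const (r : Λ) : PD 1 (fun _ : H => r) := by
  intro h; funext x; simp [Dl]

lemma PD.mono {k : ℕ} : ∀ {c : H → Λ}, PD k c → PD (k + 1) c := by
  induction k with
  | zero =>
    intro c hc h
    change c = 0 at hc
    change Dl h c = 0
    rw [hc, Dl_zero]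
  | succ k ih => intro c hc h; exact ih (hc h)

lemma PD.mono' {k l : ℕ} (hkl : k ≤ l) {c : H → Λ} (hc : PD k c) : PD l c := by
  induction hkl with
  | refl => exact hc
  | step _ ih => exact ih.mono

lemma PD_sum {k : ℕ} {ι : Type*} (s : Finset ι) (c : ι → H → Λ) (hc : ∀ i ∈ s, PD k (c i)) :
    PD k (fun x => ∑ i ∈ s, c i x) := by
  classical
  induction s using Finset.induction_on with
  | empty =>
    have : (fun x : H => ∑ i ∈ (∅ : Finset ι), c i x) = 0 := by funext x; simp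
    rw [this]; exact PD_zero k
  | insert a s ha ih =>
    have : (fun x : H => ∑ i ∈ insert a s, c i x) = c a + fun x => ∑ i ∈ s, c i x := by
      funext x; rw [Finset.sum_insert ha]; rfl
    rw [this]
    exact (hc a (Finset.mem_insert_self a s)).add
      (ih fun i hi => hc i (Finset.mem_insert_of_mem hi))

lemma Dl_mul (h : H) (c d : H → Λ) :
    Dl h (c * d) = Dl h c * d + (Dl h c * Dl h d + c * Dl h d) := by
  funext x; simp only [Dl, Pi.add_apply, Pi.mul_apply]; ring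

lemma PD.mul : ∀ {k l : ℕ} {c d : H → Λ}, PD (k + 1) c → PD (l + 1) d →
    PD (k + l + 1) (c * d) := by
  have key : ∀ N k l : ℕ, k + l = N → ∀ {c d : H → Λ}, PD (k + 1) c → PD (l + 1) d →
      PD (k + l + 1) (c * d) := by
    intro N
    induction N using Nat.strong_induction_on with
    | _ N ih =>
      intro k l hkl c d hc hd h
      rw [Dl_mul]
      refine PD.add ?_ (PD.add ?_ ?_)
      · cases k with
        | zero =>
          have : Dl h c = 0 := hc h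
          rw [this, zero_mul]; exact PD_zero _
        | succ k =>
          have h1 := ih (k + l) (by omega) k l rfl (hc h) hd
          exact h1.mono' (by omega)
      · cases k with
        | zero =>
          have : Dl h c = 0 := hc h
          rw [this, zero_mul]; exact PD_zero _
        | succ k =>
          cases l with
          | zero =>
            have : Dl h d = 0 := hd h
            rw [this, mul_zero]; exact PD_zero _
          | succ l =>
            have h1 := ih (k + l) (by omega) k l rfl (hc h) (hd h)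
            exact h1.mono' (by omega)
      · cases l with
        | zero =>
          have : Dl h d = 0 := hd h
          rw [this, mul_zero]; exact PD_zero _
        | succ l =>
          have h1 := ih (k + l) (by omega) k l rfl hc (hd h)
          exact h1.mono' (by omega)
  intro k l c d hc hd
  exact key _ k l rfl hc hd

/-- The unit `1 + t y`, for `t² = 0`. -/
def mkU (t : Λ) (ht : t * t = 0) (y : Λ) : Λˣ where
  val := 1 + t * y
  inv := 1 - t * y
  val_inv := by linear_combination (-y * y) * ht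
  inv_val := by linear_combination (-y * y) * ht

@[simp] lemma mkU_val (t : Λ) (ht : t * t = 0) (y : Λ) : ((mkU t ht y : Λˣ) : Λ) = 1 + t * y := rfl
@[simp] lemma mkU_inv (t : Λ) (ht : t * t = 0) (y : Λ) :
    (((mkU t ht y)⁻¹ : Λˣ) : Λ) = 1 - t * y := rfl

lemma D_mkU (t : Λ) (ht : t * t = 0) (h : H) (c : H → Λ) :
    D h (fun x => mkU t ht (c x)) = fun x => mkU t ht (Dl h c x) := by
  funext x
  apply Units.ext
  rw [D_apply, Units.val_mul, mkU_val, mkU_inv, mkU_val]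
  simp only [Dl]
  linear_combination (-(c (x + h)) * c x) * ht

lemma PM_mkU (t : Λ) (ht : t * t = 0) {k : ℕ} : ∀ {c : H → Λ}, PD k c →
    PM k (fun x => mkU t ht (c x)) := by
  induction k with
  | zero =>
    intro c hc
    change c = 0 at hc
    change (fun x => mkU t ht (c x)) = 1
    rw [hc]
    funext x
    apply Units.ext
    simp
  | succ k ih => intro c hc h; rw [D_mkU]; exact ih (hc h)

end PD

/-! ### The quadratic functions -/

/-- `x (x - 1) / 2`. -/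
def bin (x : ℤ) : ℤ := x * (x - 1) / 2

lemma two_mul_bin (x : ℤ) : 2 * bin x = x * (x - 1) := by
  rw [bin]
  apply Int.mul_ediv_cancel'
  have := Int.even_mul_pred_self x
  exact this.two_dvd

lemma bin_add (x h : ℤ) : bin (x + h) = bin x + (h * x + bin h) := by
  have h1 := two_mul_bin (x + h)
  have h2 := two_mul_bin x
  have h3 := two_mul_bin h
  have : 2 * bin (x + h) = 2 * (bin x + (h * x + bin h)) := by
    rw [h1]; linear_combination -h2 - h3
  linarith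

section zf

variable {n : ℕ} {Λ : Type} [CommRing Λ]

/-- The bilinear form with matrix `Y`. -/
def zf (Y : Fin n → Fin n → Λ) (u v : Fin n → ℤ) : Λ :=
  ∑ j, ∑ k, ((u j : ℤ) : Λ) * ((v k : ℤ) : Λ) * Y j k

/-- The cubic function on `ℤ × ℤⁿ`. -/
def c0 (Y : Fin n → Fin n → Λ) (x : ℤ × (Fin n → ℤ)) : Λ :=
  (x.1 : Λ) * ∑ j, ∑ k ∈ Finset.Ioi j, ((bin (x.2 j) : ℤ) : Λ) * ((bin (x.2 k) : ℤ) : Λ) * Y j k

lemma PD_bin (j : Fin n) : PD 3 (fun x : ℤ × (Fin n → ℤ) => ((bin (x.2 j) : ℤ) : Λ)) := by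
  intro h
  have h1 : Dl h (fun x : ℤ × (Fin n → ℤ) => ((bin (x.2 j) : ℤ) : Λ)) =
      fun x => ((h.2 j : ℤ) : Λ) * ((x.2 j : ℤ) : Λ) + ((bin (h.2 j) : ℤ) : Λ) := by
    funext x
    simp only [Dl]
    rw [Prod.snd_add, Pi.add_apply, bin_add]
    push_cast
    ring
  rw [h1]
  intro h'
  have h2 : Dl h' (fun x : ℤ × (Fin n → ℤ) =>
      ((h.2 j : ℤ) : Λ) * ((x.2 j : ℤ) : Λ) + ((bin (h.2 j) : ℤ) : Λ)) =
      fun _ => ((h.2 j : ℤ) : Λ) * ((h'.2 j : ℤ) : Λ) := by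
    funext x
    simp only [Dl]
    rw [Prod.snd_add, Pi.add_apply]
    push_cast
    ring
  rw [h2]
  exact PD_const _

lemma PD_fst : PD 2 (fun x : ℤ × (Fin n → ℤ) => ((x.1 : ℤ) : Λ)) := by
  intro h
  have h1 : Dl h (fun x : ℤ × (Fin n → ℤ) => ((x.1 : ℤ) : Λ)) = fun _ => ((h.1 : ℤ) : Λ) := by
    funext x
    simp only [Dl]
    rw [Prod.fst_add]
    push_cast
    ring
  rw [h1]
  exact PD_const _

lemma PD_c0 (Y : Fin n → Fin n → Λ) : PD 6 (c0 Y) := by
  have h1 : PD 5 (fun x : ℤ × (Fin n → ℤ) =>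
      ∑ j, ∑ k ∈ Finset.Ioi j, ((bin (x.2 j) : ℤ) : Λ) * ((bin (x.2 k) : ℤ) : Λ) * Y j k) := by
    refine PD_sum _ (fun (j : Fin n) (x : ℤ × (Fin n → ℤ)) => ∑ k ∈ Finset.Ioi j,
      ((bin (x.2 j) : ℤ) : Λ) * ((bin (x.2 k) : ℤ) : Λ) * Y j k) fun j _ => ?_
    refine PD_sum _ (fun (k : Fin n) (x : ℤ × (Fin n → ℤ)) =>
      ((bin (x.2 j) : ℤ) : Λ) * ((bin (x.2 k) : ℤ) : Λ) * Y j k) fun k _ => ?_
    have h2 := PD.mul (PD.mul (PD_bin (Λ := Λ) j) (PD_bin (Λ := Λ) k))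
      (PD_const (H := ℤ × (Fin n → ℤ)) (Y j k))
    exact h2
  exact PD.mul PD_fst h1

lemma bin_two (h2 : (2 : Λ) = 0) (x u : ℤ) :
    ((bin (x + (u + u)) : ℤ) : Λ) = ((bin x : ℤ) : Λ) + ((u : ℤ) : Λ) := by
  have h3 : bin (x + (u + u)) = bin x + u + 2 * (u * x + u * u - u) := by
    rw [bin_add]
    have := two_mul_bin (u + u)
    have h4 : 2 * bin (u + u) = 2 * (2 * u * u - u) := by rw [this]; ring
    have h5 : bin (u + u) = 2 * u * u - u := by linarith
    rw [h5]; ring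
  rw [h3]
  push_cast
  rw [h2]; ring

/-- The inner part of `c0` -/
def c1 (Y : Fin n → Fin n → Λ) (x : Fin n → ℤ) : Λ :=
  ∑ j, ∑ k ∈ Finset.Ioi j, ((bin (x j) : ℤ) : Λ) * ((bin (x k) : ℤ) : Λ) * Y j k

lemma c0_eq (Y : Fin n → Fin n → Λ) (x : ℤ × (Fin n → ℤ)) : c0 Y x = (x.1 : Λ) * c1 Y x.2 := rfl

lemma c1_diff (h2 : (2 : Λ) = 0) (Y : Fin n → Fin n → Λ) (hY : ∀ j k, Y k j = - Y j k)
    (hY0 : ∀ j, Y j j = 0) (x u v : Fin n → ℤ) :
    c1 Y (x + (u + u) + (v + v)) - c1 Y (x + (u + u)) - (c1 Y (x + (v + v)) - c1 Y x) =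
      zf Y u v := by
  have h3 : ∀ a : Λ, -a = a := by
    intro a; linear_combination (-a) * h2
  have h1 : c1 Y (x + (u + u) + (v + v)) - c1 Y (x + (u + u)) - (c1 Y (x + (v + v)) - c1 Y x) =
      ∑ j, ∑ k ∈ Finset.Ioi j, ((((v j : ℤ) : Λ) * ((u k : ℤ) : Λ) * Y k j) +
        (((u j : ℤ) : Λ) * ((v k : ℤ) : Λ) * Y j k)) := by
    simp only [c1]
    rw [← Finset.sum_sub_distrib, ← Finset.sum_sub_distrib, ← Finset.sum_sub_distrib]
    refine Finset.sum_congr rfl fun j _ => ?_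
    rw [← Finset.sum_sub_distrib, ← Finset.sum_sub_distrib, ← Finset.sum_sub_distrib]
    refine Finset.sum_congr rfl fun k _ => ?_
    simp only [Pi.add_apply]
    rw [bin_two h2, bin_two h2, bin_two h2, bin_two h2, bin_two h2, bin_two h2, hY j k, h3]
    ring
  rw [h1]
  have h4 := Finset.sum_sum_Ioi_add_eq_sum_sum_off_diag
    (fun k j : Fin n => ((u j : ℤ) : Λ) * ((v k : ℤ) : Λ) * Y j k)
  have h5 : ∑ j, ∑ k ∈ Finset.Ioi j, ((((v j : ℤ) : Λ) * ((u k : ℤ) : Λ) * Y k j) +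
        (((u j : ℤ) : Λ) * ((v k : ℤ) : Λ) * Y j k)) =
      ∑ j, ∑ k ∈ Finset.Ioi j, ((((u j : ℤ) : Λ) * ((v k : ℤ) : Λ) * Y j k) +
        (((u k : ℤ) : Λ) * ((v j : ℤ) : Λ) * Y k j)) := by
    refine Finset.sum_congr rfl fun j _ => Finset.sum_congr rfl fun k _ => ?_
    ring
  rw [h5, h4, zf]
  refine Finset.sum_congr rfl fun j _ => ?_
  rw [← Finset.sum_compl_add_sum {j}, Finset.sum_singleton, hY0, mul_zero, add_zero]

lemma Dl_comm {H : Type} [AddCommGroup H] (h k : H) (c : H → Λ) :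
    Dl h (Dl k c) = Dl k (Dl h c) := by
  funext x; simp only [Dl, add_right_comm x h k]; ring

lemma c0_diff (h2 : (2 : Λ) = 0) (Y : Fin n → Fin n → Λ) (hY : ∀ j k, Y k j = - Y j k)
    (hY0 : ∀ j, Y j j = 0) (s u v x : ℤ × (Fin n → ℤ)) :
    Dl (v + v) (Dl (u + u) (Dl s (c0 Y))) x = (s.1 : Λ) * zf Y u.2 v.2 := by
  have h3 : Dl (v + v) (Dl (u + u) (c0 Y)) = fun x => (x.1 : Λ) * zf Y u.2 v.2 := by
    funext x
    simp only [Dl, c0_eq, Prod.fst_add, Prod.snd_add]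
    rw [← c1_diff h2 Y hY hY0 x.2 u.2 v.2]
    have h4 : x.2 + (v.2 + v.2) + (u.2 + u.2) = x.2 + (u.2 + u.2) + (v.2 + v.2) := by abel
    rw [h4]
    push_cast
    have h5 : ∀ a : Λ, a + a = 0 := by intro a; linear_combination a * h2
    rw [h5, h5]
    ring
  rw [Dl_comm (u + u) s, Dl_comm (v + v) s, h3]
  simp only [Dl, Prod.fst_add]
  push_cast
  ring

/-- The form on `ℤ × ℤⁿ`. -/
def zH (Y : Fin n → Fin n → Λ) (u v : ℤ × (Fin n → ℤ)) : Λ := zf Y u.2 v.2

lemma InA_c0 (h2 : (2 : Λ) = 0) (Y : Fin n → Fin n → Λ) (hY : ∀ j k, Y k j = - Y j k)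
    (hY0 : ∀ j, Y j j = 0) (t : Λ) (ht : t * t = 0) :
    InA (zH Y) (fun x => mkU t ht (c0 Y x)) := by
  refine ⟨PM_mkU t ht (PD_c0 Y), fun s u v x => ?_⟩
  rw [D_mkU, D_mkU, D_mkU, mkU_val, c0_diff h2 Y hY hY0]
  have h3 : (1 : Λ) + t * ((s.1 : Λ) * zf Y u.2 v.2) - 1 = zH Y u v * (t * (s.1 : Λ)) := by
    rw [zH]; ring
  rw [h3]
  exact Dvd.intro _ rfl

/-- The unit vectors. -/
def ev (n : ℕ) (k : ℕ) : Fin n → ℤ := fun j => if (j : ℕ) = k then 1 else 0

/-- The variables for which the closed chain word does not vanish. -/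
def vx (Λ : Type) [CommRing Λ] (n k : ℕ) : Aff (ℤ × (Fin n → ℤ)) Λ := ⟨0, 1, (0, ev n k)⟩

def vs (Y : Fin n → Fin n → Λ) (t : ℕ → Λ) (ht : ∀ i, t i * t i = 0) (k : ℕ) :
    Aff (ℤ × (Fin n → ℤ)) Λ := ⟨0, fun x => mkU (t k) (ht k) (c0 Y x), 0⟩

def vt (Λ : Type) [CommRing Λ] (n : ℕ) (_ : ℕ) : Aff (ℤ × (Fin n → ℤ)) Λ := ⟨0, 1, (1, 0)⟩

def vy (Λ : Type) [CommRing Λ] (n k : ℕ) : Aff (ℤ × (Fin n → ℤ)) Λ :=
  if k = 0 then ⟨fun x => if x = 0 then 1 else 0, 1, 0⟩ else ⟨0, 1, (1, 0)⟩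

lemma lnk_v (h2 : (2 : Λ) = 0) (Y : Fin n → Fin n → Λ) (hY : ∀ j k, Y k j = - Y j k)
    (hY0 : ∀ j, Y j j = 0) (t : ℕ → Λ) (ht : ∀ i, t i * t i = 0) (m k : ℕ)
    (x : ℤ × (Fin n → ℤ)) :
    1 - (((lnk (vx Λ n) (vs Y t ht) (vt Λ n) m k).a x : Λˣ) : Λ) =
      t k * zf Y (ev n k) (ev n ((k + 1) % m)) := by
  rw [lnk, comm_a_of_h _ _ (comm_h _ _), comm_a_of_h _ _ (comm_h _ _), D_inv, inv_inv, comm_a,
    mul_h, mul_h, D_mul, D_mul, D_inv, D_inv]
  have h3 : D (vs Y t ht k).h (vt Λ n k).a = 1 := D_one _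
  rw [h3, D_one, D_one, one_mul]
  have h4 : (vs Y t ht k).a = fun x => mkU (t k) (ht k) (c0 Y x) := rfl
  rw [h4, D_mkU, D_mkU, D_mkU, Pi.inv_apply, mkU_inv]
  have h5 : Dl ((vx Λ n ((k + 1) % m)).h + (vx Λ n ((k + 1) % m)).h)
      (Dl ((vx Λ n k).h + (vx Λ n k).h) (Dl (vt Λ n k).h (c0 Y))) x =
      zf Y (ev n k) (ev n ((k + 1) % m)) := by
    rw [c0_diff h2 Y hY hY0]
    simp [vx, vt]
  rw [h5]; ring

lemma lnc_v (k : ℕ) : (lnc (vy Λ n) k).h = 0 ∧ (lnc (vy Λ n) k).a = 1 ∧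
    (lnc (vy Λ n) k).f 0 = 1 ∧
    ∀ x : ℤ × (Fin n → ℤ), 0 < x.1 → (lnc (vy Λ n) k).f x = 0 := by
  induction k with
  | zero =>
    refine ⟨rfl, rfl, ?_, fun x hx => ?_⟩
    · simp [lnc, vy]
    · simp only [lnc, vy, if_true]
      rw [if_neg]
      rintro rfl
      simp at hx
  | succ k ih =>
    obtain ⟨h1, h2, h3, h4⟩ := ih
    have h5 : vy Λ n (k + 1) = ⟨0, 1, (1, 0)⟩ := by simp [vy]
    have h6 : ∀ x, (lnc (vy Λ n) (k + 1)).f x =
        (lnc (vy Λ n) k).f x - (lnc (vy Λ n) k).f (x + (1, 0)) := by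
      intro x
      change (⁅lnc (vy Λ n) k, vy Λ n (k + 1)⁆ : Aff (ℤ × (Fin n → ℤ)) Λ).f x = _
      rw [h5, comm_f' _ _ h1 h2 rfl rfl]
    refine ⟨comm_h _ _, ?_, ?_, fun x hx => ?_⟩
    · change (⁅lnc (vy Λ n) k, vy Λ n (k + 1)⁆ : Aff (ℤ × (Fin n → ℤ)) Λ).a = 1
      rw [comm_a_of_h _ _ h1, h2, D_one, inv_one]
    · rw [h6, h3, h4 _ (by simp), sub_zero]
    · rw [h6, h4 _ hx, h4 _ (by simp; omega), sub_zero]

/-- **The group part.**  Given a ring `Λ` in which `2 = 0`, an alternating matrix `Y` over `Λ` and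
elements `t i` of square zero, such that the closed chain products of length `m ≥ 3`, `m ≠ n`,
vanish for the form with matrix `Y`, but the product of the `t i` and the closed chain product of
the unit vectors does not, the closed chain word of length `n` does not follow from the other
ones. -/
theorem exists_group (h2 : (2 : Λ) = 0) (Y : Fin n → Fin n → Λ) (hY : ∀ j k, Y k j = - Y j k)
    (hY0 : ∀ j, Y j j = 0)
    (hcl : ∀ m, 3 ≤ m → m ≠ n → ∀ u : ℕ → Fin n → ℤ,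
      ∏ i ∈ Finset.range m, zf Y (u i) (u ((i + 1) % m)) = 0)
    (t : ℕ → Λ) (ht : ∀ i, t i * t i = 0)
    (hne : (∏ i ∈ Finset.range n, t i) *
      ∏ i ∈ Finset.range n, zf Y (ev n i) (ev n ((i + 1) % n)) ≠ 0) :
    ∃ (G : Type) (_ : Group G), (∀ y y' : ℕ → G, ⁅lnc y 6, lnc y' 6⁆ = 1) ∧
      (∀ m, 3 ≤ m → m ≠ n → ∀ y x s t : ℕ → G, chn y x s t m m = 1) ∧
      ∃ y x s t : ℕ → G, chn y x s t n n ≠ 1 := by
  refine ⟨tg (zH Y), inferInstance, fun y y' => ?_, fun m hm hmn y x s t => ?_, ?_⟩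
  · apply (tg (zH Y)).subtype_injective
    rw [map_commutatorElement, map_lnc, map_lnc, map_one]
    exact delta_law (z := zH Y) _ _ (fun i => (y i).2) (fun i => (y' i).2)
  · apply (tg (zH Y)).subtype_injective
    rw [map_chn, map_one]
    refine chain_law (z := zH Y) m (fun u => ?_) _ _ _ _ (fun i => (y i).2) (fun i => (s i).2)
      (fun i => (t i).2)
    exact hcl m hm hmn (fun i => (u i).2)
  · have hx : ∀ k, vx Λ n k ∈ tg (zH Y) := fun k => InA_one _
    have hs : ∀ k, vs Y t ht k ∈ tg (zH Y) := fun k => InA_c0 h2 Y hY hY0 (t k) (ht k)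
    have ht' : ∀ k, vt Λ n k ∈ tg (zH Y) := fun k => InA_one _
    have hy : ∀ k, vy Λ n k ∈ tg (zH Y) := fun k => by
      rw [vy]; split_ifs <;> exact InA_one _
    have key : chn (vy Λ n) (vx Λ n) (vs Y t ht) (vt Λ n) n n ≠ 1 := by
      intro h3
      apply hne
      have h4 := (chn_spec (z := zH Y) (vy Λ n) (vx Λ n) (vs Y t ht) (vt Λ n) hy n n).2.2 0
      rw [h3, one_f, (lnc_v 6).2.2.1, mul_one] at h4
      rw [← Finset.prod_mul_distrib, h4]
      exact Finset.prod_congr rfl fun i _ => (lnk_v h2 Y hY hY0 t ht n i 0).symm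
    refine ⟨fun k => ⟨vy Λ n k, hy k⟩, fun k => ⟨vx Λ n k, hx k⟩, fun k => ⟨vs Y t ht k, hs k⟩,
      fun k => ⟨vt Λ n k, ht' k⟩, fun hcon => key ?_⟩
    have h3 := map_chn (tg (zH Y)).subtype (fun k => ⟨vy Λ n k, hy k⟩)
      (fun k => ⟨vx Λ n k, hx k⟩) (fun k => ⟨vs Y t ht k, hs k⟩) (fun k => ⟨vt Λ n k, ht' k⟩) n n
    rw [hcon, map_one] at h3
    exact h3.symm

end zf

end Aff

end Pool.Agent.Lib.MP_3fd305_al.Six
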