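import Pool.Agent.Lib.MP_3fd305_al.Six.Aff

/-!
# Closed chain words and the groups on which they vanish
-/

open scoped commutatorElement

namespace Pool.Agent.Lib.MP_3fd305_al.Six

/-- The left-normed commutator `[y 0, y 1, ..., y k]`. -/
def lnc {G : Type*} [Group G] (y : ℕ → G) : ℕ → G
  | 0 => y 0
  | k + 1 => ⁅lnc y k, y (k + 1)⁆

/-- The links of the closed chain. -/
def lnk {G : Type*} [Group G] (x s t : ℕ → G) (m k : ℕ) : G :=
  ⁅⁅⁅s k, t k⁆, x k * x k⁆, x ((k + 1) % m) * x ((k + 1) % m)⁆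

/-- The iterated commutator of a left-normed commutator with the links of the closed chain. -/
def chn {G : Type*} [Group G] (y x s t : ℕ → G) (m : ℕ) : ℕ → G
  | 0 => lnc y 6
  | k + 1 => ⁅chn y x s t m k, lnk x s t m k⁆

lemma map_lnc {G G' : Type*} [Group G] [Group G'] (φ : G →* G') (y : ℕ → G) (k : ℕ) :
    φ (lnc y k) = lnc (fun i => φ (y i)) k := by
  induction k with
  | zero => rfl
  | succ k ih =>
    simp only [lnc, commutatorElement_def, map_mul, map_inv]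
    rw [ih]

lemma map_lnk {G G' : Type*} [Group G] [Group G'] (φ : G →* G') (x s t : ℕ → G) (m k : ℕ) :
    φ (lnk x s t m k) = lnk (fun i => φ (x i)) (fun i => φ (s i)) (fun i => φ (t i)) m k := by
  simp only [lnk, commutatorElement_def, map_mul, map_inv]

lemma map_chn {G G' : Type*} [Group G] [Group G'] (φ : G →* G') (y x s t : ℕ → G) (m k : ℕ) :
    φ (chn y x s t m k) = chn (fun i => φ (y i)) (fun i => φ (x i)) (fun i => φ (s i))
      (fun i => φ (t i)) m k := by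
  induction k with
  | zero => exact map_lnc φ y 6
  | succ k ih =>
    have h : φ (chn y x s t m (k + 1)) = ⁅φ (chn y x s t m k), φ (lnk x s t m k)⁆ := by
      simp only [chn, commutatorElement_def, map_mul, map_inv]
    rw [h, ih, map_lnk]
    rfl

namespace Aff

variable {H Λ : Type} [AddCommGroup H] [CommRing Λ]

/-- Multiplicative polynomial functions of degree less than `k`. -/
def PM : ℕ → (H → Λˣ) → Prop
  | 0, a => a = 1
  | k + 1, a => ∀ h, PM k (D h a)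

lemma PM_one (k : ℕ) : PM k (1 : H → Λˣ) := by
  induction k with
  | zero => rfl
  | succ k ih => intro h; rw [D_one]; exact ih

lemma PM.mul {k : ℕ} : ∀ {a b : H → Λˣ}, PM k a → PM k b → PM k (a * b) := by
  induction k with
  | zero =>
    intro a b ha hb
    change a = 1 at ha
    change b = 1 at hb
    change a * b = 1
    rw [ha, hb, one_mul]
  | succ k ih => intro a b ha hb h; rw [D_mul]; exact ih (ha h) (hb h)

lemma PM.inv {k : ℕ} : ∀ {a : H → Λˣ}, PM k a → PM k a⁻¹ := by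
  induction k with
  | zero =>
    intro a ha
    change a = 1 at ha
    change a⁻¹ = 1
    rw [ha, inv_one]
  | succ k ih => intro a ha h; rw [D_inv]; exact ih (ha h)

lemma PM.T {k : ℕ} (r : H) : ∀ {a : H → Λˣ}, PM k a → PM k (T r a) := by
  induction k with
  | zero =>
    intro a ha
    change a = 1 at ha
    change Aff.T r a = 1
    rw [ha]; rfl
  | succ k ih => intro a ha h; rw [D_T]; exact ih (ha h)

/-- Functions congruent to `1` modulo `c`. -/
def Cg (c : Λ) (a : H → Λˣ) : Prop := ∀ x, c ∣ ((a x : Λˣ) : Λ) - 1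

omit [AddCommGroup H] in
lemma Cg_one (c : Λ) : Cg c (1 : H → Λˣ) := fun x => by simp

omit [AddCommGroup H] in
lemma Cg.mul {c : Λ} {a b : H → Λˣ} (ha : Cg c a) (hb : Cg c b) : Cg c (a * b) := by
  intro x
  have h : (((a * b) x : Λˣ) : Λ) - 1 = (a x : Λ) * ((b x : Λ) - 1) + ((a x : Λ) - 1) := by
    rw [Pi.mul_apply, Units.val_mul]; ring
  rw [h]
  exact dvd_add (Dvd.dvd.mul_left (hb x) _) (ha x)

omit [AddCommGroup H] in
lemma Cg.inv {c : Λ} {a : H → Λˣ} (ha : Cg c a) : Cg c a⁻¹ := by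
  intro x
  have h : (((a⁻¹) x : Λˣ) : Λ) - 1 = -(((a x)⁻¹ : Λˣ) : Λ) * ((a x : Λ) - 1) := by
    rw [Pi.inv_apply]
    have := Units.inv_mul (a x)
    linear_combination this
  rw [h]
  exact Dvd.dvd.mul_left (ha x) _

lemma Cg.T {c : Λ} {a : H → Λˣ} (r : H) (ha : Cg c a) : Cg c (T r a) := fun x => ha (x + r)

/-- The multipliers of the test group. -/
def InA (z : H → H → Λ) (a : H → Λˣ) : Prop :=
  PM 6 a ∧ ∀ s u v : H, Cg (z u v) (D (v + v) (D (u + u) (D s a)))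

lemma InA_one (z : H → H → Λ) : InA z (1 : H → Λˣ) :=
  ⟨PM_one 6, fun s u v => by rw [D_one, D_one, D_one]; exact Cg_one _⟩

lemma InA.mul {z : H → H → Λ} {a b : H → Λˣ} (ha : InA z a) (hb : InA z b) : InA z (a * b) :=
  ⟨ha.1.mul hb.1, fun s u v => by
    rw [D_mul, D_mul, D_mul]; exact (ha.2 s u v).mul (hb.2 s u v)⟩

lemma InA.inv {z : H → H → Λ} {a : H → Λˣ} (ha : InA z a) : InA z a⁻¹ :=
  ⟨ha.1.inv, fun s u v => by
    rw [D_inv, D_inv, D_inv]; exact (ha.2 s u v).inv⟩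

lemma InA.T {z : H → H → Λ} {a : H → Λˣ} (r : H) (ha : InA z a) : InA z (T r a) :=
  ⟨ha.1.T r, fun s u v => by
    rw [D_T, D_T, D_T]; exact (ha.2 s u v).T r⟩

/-- The test group. -/
def tg (z : H → H → Λ) : Subgroup (Aff H Λ) where
  carrier := {p | InA z p.a}
  mul_mem' := fun {p q} hp hq => by
    have h : (p * q).a = p.a * Aff.T p.h q.a := rfl
    change InA z (p * q).a
    rw [h]
    exact InA.mul hp (InA.T _ hq)
  one_mem' := InA_one z
  inv_mem' := fun {p} hp => by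
    have h : (p⁻¹).a = (Aff.T (-p.h) p.a)⁻¹ := by
      funext x
      rw [inv_a, sub_eq_add_neg]; rfl
    change InA z (p⁻¹).a
    rw [h]
    exact InA.inv (InA.T _ hp)

lemma mem_tg {z : H → H → Λ} {p : Aff H Λ} : p ∈ tg z ↔ InA z p.a := Iff.rfl

/-- Left-normed commutators in the test group. -/
lemma lnc_spec {z : H → H → Λ} (y : ℕ → Aff H Λ) (hy : ∀ i, y i ∈ tg z) (k : ℕ) (hk : k ≤ 5) :
    (lnc y (k + 1)).h = 0 ∧ PM (5 - k) (lnc y (k + 1)).a := by
  induction k with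
  | zero =>
    refine ⟨comm_h _ _, ?_⟩
    change PM 5 (⁅y 0, y 1⁆ : Aff H Λ).a
    rw [comm_a]
    exact ((hy 1).1 _).mul ((hy 0).1 _).inv
  | succ k ih =>
    obtain ⟨h1, h2⟩ := ih (by omega)
    refine ⟨comm_h _ _, ?_⟩
    change PM (5 - (k + 1)) (⁅lnc y (k + 1), y (k + 2)⁆ : Aff H Λ).a
    rw [comm_a_of_h _ _ h1]
    have h3 : 5 - k = (5 - (k + 1)) + 1 := by omega
    rw [h3] at h2
    exact (h2 _).inv

lemma lnc_six {z : H → H → Λ} (y : ℕ → Aff H Λ) (hy : ∀ i, y i ∈ tg z) :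
    (lnc y 6).h = 0 ∧ (lnc y 6).a = 1 := by
  have h := lnc_spec y hy 5 le_rfl
  exact ⟨h.1, h.2⟩

/-- The left-normed commutators of weight `7` in the test group commute. -/
theorem delta_law {z : H → H → Λ} (y y' : ℕ → Aff H Λ) (hy : ∀ i, y i ∈ tg z)
    (hy' : ∀ i, y' i ∈ tg z) : ⁅lnc y 6, lnc y' 6⁆ = 1 := by
  obtain ⟨h1, h2⟩ := lnc_six y hy
  obtain ⟨h3, h4⟩ := lnc_six y' hy'
  rw [commutatorElement_eq_one_iff_mul_comm]
  ext x
  · rw [mul_f, mul_f, h1, h2, h3, h4]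
    simp [add_comm]
  · rw [mul_a, mul_a, h2, h4]; simp
  · rw [mul_h, mul_h, h1, h3]

/-- The links. -/
lemma lnk_spec {z : H → H → Λ} (x s t : ℕ → Aff H Λ) (hs : ∀ i, s i ∈ tg z)
    (ht : ∀ i, t i ∈ tg z) (m k : ℕ) :
    (lnk x s t m k).h = 0 ∧ Cg (z (x k).h (x ((k + 1) % m)).h) (lnk x s t m k).a := by
  refine ⟨comm_h _ _, ?_⟩
  rw [lnk, comm_a_of_h _ _ (comm_h _ _), comm_a_of_h _ _ (comm_h _ _), D_inv, inv_inv, comm_a,
    mul_h, mul_h, D_mul, D_mul, D_inv, D_inv]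
  exact ((ht k).2 _ _ _).mul ((hs k).2 _ _ _).inv

lemma chn_spec {z : H → H → Λ} (y x s t : ℕ → Aff H Λ) (hy : ∀ i, y i ∈ tg z)
    (m k : ℕ) : (chn y x s t m k).h = 0 ∧ (chn y x s t m k).a = 1 ∧
      ∀ r, (chn y x s t m k).f r =
        (∏ i ∈ Finset.range k, (1 - (((lnk x s t m i).a r : Λˣ) : Λ))) * (lnc y 6).f r := by
  induction k with
  | zero =>
    obtain ⟨h1, h2⟩ := lnc_six y hy
    exact ⟨h1, h2, fun r => by simp [chn]⟩
  | succ k ih =>
    obtain ⟨h1, h2, h3⟩ := ih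
    have h4 : (lnk x s t m k).h = 0 := comm_h _ _
    refine ⟨comm_h _ _, ?_, fun r => ?_⟩
    · change (⁅chn y x s t m k, lnk x s t m k⁆ : Aff H Λ).a = 1
      rw [comm_a_of_h _ _ h1, h2, D_one, inv_one]
    · change (⁅chn y x s t m k, lnk x s t m k⁆ : Aff H Λ).f r = _
      rw [comm_f _ _ h1 h2 h4, h3, Finset.prod_range_succ]
      ring

/-- A closed chain word is a law of the test group if the closed chain products vanish. -/
theorem chain_law {z : H → H → Λ} (m : ℕ)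
    (hz : ∀ u : ℕ → H, ∏ i ∈ Finset.range m, z (u i) (u ((i + 1) % m)) = 0)
    (y x s t : ℕ → Aff H Λ) (hy : ∀ i, y i ∈ tg z) (hs : ∀ i, s i ∈ tg z)
    (ht : ∀ i, t i ∈ tg z) : chn y x s t m m = 1 := by
  obtain ⟨h1, h2, h3⟩ := chn_spec (z := z) y x s t hy m m
  have h4 : ∀ r, (chn y x s t m m).f r = 0 := by
    intro r
    rw [h3]
    have h5 : ∏ i ∈ Finset.range m, z ((fun j => (x j).h) i) ((fun j => (x j).h) ((i + 1) % m)) ∣
        ∏ i ∈ Finset.range m, (1 - (((lnk x s t m i).a r : Λˣ) : Λ)) := by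
      apply Finset.prod_dvd_prod_of_dvd
      intro i _
      have h6 := (lnk_spec x s t hs ht m i).2 r
      have h7 : (1 - (((lnk x s t m i).a r : Λˣ) : Λ)) =
        -((((lnk x s t m i).a r : Λˣ) : Λ) - 1) := by ring
      rw [h7, dvd_neg]
      exact h6
    rw [hz] at h5
    rw [zero_dvd_iff.1 h5, zero_mul]
  ext r
  · rw [h4]; rfl
  · rw [h2]; rfl
  · rw [h1]; rfl

end Aff

end Pool.Agent.Lib.MP_3fd305_al.Six
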