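import Pool.Agent.Lib.MP_3fd305_al.Six.Alg

/-!
# The test ring
-/

namespace Pool.Agent.Lib.MP_3fd305_al.Six

open MvPolynomial

namespace TR

variable {n : ℕ}

/-- The polynomial ring in the variables `a j`, `b j`, `t j` over `ℤ / 4`. -/
abbrev P (n : ℕ) := MvPolynomial (Fin n × Fin 3) (ZMod 4)

/-- The exponent of the product of all variables. -/
noncomputable def ones (n : ℕ) : (Fin n × Fin 3) →₀ ℕ := Finsupp.equivFunOnFinite.symm fun _ => 1

@[simp] lemma ones_apply (i : Fin n × Fin 3) : ones n i = 1 := rfl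

/-- The coefficient of the product of all variables. -/
noncomputable def top (f : P n) : ZMod 4 := coeff (ones n) f

lemma top_add (f g : P n) : top (f + g) = top f + top g := coeff_add _ _ _
lemma top_sub (f g : P n) : top (f - g) = top f - top g := coeff_sub _ _ _ _
lemma top_neg (f : P n) : top (-f) = - top f := coeff_neg _ _ _
lemma top_zero : top (0 : P n) = 0 := coeff_zero _

lemma top_sq (i : Fin n × Fin 3) (f : P n) : top (X i * X i * f) = 0 := by
  classical
  rw [top, mul_assoc, mul_comm, coeff_mul_X', mul_comm, coeff_mul_X']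
  split_ifs with h1 h2
  · exfalso
    rw [Finsupp.mem_support_iff] at h2
    apply h2
    simp
  · rfl
  · rfl

lemma four : (4 : P n) = 0 := by
  have h : (4 : ZMod 4) = 0 := rfl
  have h2 : (4 : P n) = C (4 : ZMod 4) := (map_ofNat C 4).symm
  rw [h2, h, C_0]

/-- The swap of the variables `a` and `b`. -/
def sw (i : Fin n × Fin 3) : Fin n × Fin 3 := (i.1, Equiv.swap 0 1 i.2)

lemma sw_sw (i : Fin n × Fin 3) : sw (sw i) = i := by
  simp [sw]

lemma sw_inj : Function.Injective (sw (n := n)) := Function.LeftInverse.injective sw_sw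

noncomputable def sg : P n →ₐ[ZMod 4] P n := rename sw

lemma top_sg (f : P n) : top (sg f) = top f := by
  have h : (ones n).mapDomain sw = ones n := by
    ext i
    rw [← sw_sw i, Finsupp.mapDomain_apply sw_inj]
    rfl
  have h2 := coeff_rename_mapDomain sw sw_inj f (ones n)
  rw [h] at h2
  exact h2

/-- Invariance under the swap modulo `2`. -/
def Sinv (f : P n) : Prop := 2 * sg f = 2 * f

lemma Sinv.mul {f g : P n} (hf : Sinv f) (hg : Sinv g) : Sinv (f * g) := by
  unfold Sinv at *
  rw [map_mul]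
  linear_combination sg g * hf + f * hg

lemma Sinv_one : Sinv (1 : P n) := by simp [Sinv]

lemma Sinv_prod {ι : Type*} (s : Finset ι) (f : ι → P n) (hf : ∀ i ∈ s, Sinv (f i)) :
    Sinv (∏ i ∈ s, f i) := by
  classical
  induction s using Finset.induction_on with
  | empty => simpa using Sinv_one
  | insert a s ha ih =>
    rw [Finset.prod_insert ha]
    exact (hf a (Finset.mem_insert_self a s)).mul
      (ih fun i hi => hf i (Finset.mem_insert_of_mem hi))

/-- The variables. -/
noncomputable def va (j : Fin n) : P n := X (j, 0)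
noncomputable def vb (j : Fin n) : P n := X (j, 1)
noncomputable def vt (j : Fin n) : P n := X (j, 2)

lemma sg_va (j : Fin n) : sg (va j) = vb j := by
  rw [va, sg, rename_X]; rfl
lemma sg_vb (j : Fin n) : sg (vb j) = va j := by
  rw [vb, sg, rename_X]; rfl
lemma sg_vt (j : Fin n) : sg (vt j) = vt j := by
  rw [vt, sg, rename_X]; rfl

/-- The entries of the matrix of the form. -/
noncomputable def y (j k : Fin n) : P n := va j * vb k - va k * vb j

lemma Sinv_y (j k : Fin n) : Sinv (y j k) := by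
  unfold Sinv y
  rw [map_sub, map_mul, map_mul, sg_va, sg_vb, sg_va, sg_vb]
  linear_combination (vb j * va k - va j * vb k) * four

lemma Sinv_vt (j : Fin n) : Sinv (vt j) := by
  unfold Sinv; rw [sg_vt]

/-- The generators of the test ring. -/
def gens (n : ℕ) : Set (P n) := {f | (∃ j k, f = y j k) ∨ ∃ j, f = vt j}

/-- The weight. -/
def wt (i : Fin n × Fin 3) : ℕ := if i.2 = 2 then 0 else 1

lemma weight_ones : Finsupp.weight wt (ones n) = 2 * n := by
  rw [Finsupp.weight_apply, Finsupp.sum_fintype _ _ (by simp)]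
  simp only [ones_apply, smul_eq_mul, one_mul]
  rw [Fintype.sum_prod_type]
  have : ∀ j : Fin n, ∑ k : Fin 3, wt (j, k) = 2 := by
    intro j
    simp [Fin.sum_univ_three, wt]
  simp only [this]
  simp [mul_comm]

/-- The monomials in the generators. -/
lemma mon_spec (x : P n) (hx : x ∈ Submonoid.closure (gens n)) :
    Sinv x ∧ (IsWeightedHomogeneous wt x 0 ∨ ∃ j k x', x = y j k * x' ∧ Sinv x') := by
  induction hx using Submonoid.closure_induction with
  | mem x hx =>
    rcases hx with ⟨j, k, rfl⟩ | ⟨j, rfl⟩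
    · exact ⟨Sinv_y j k, Or.inr ⟨j, k, 1, by rw [mul_one], Sinv_one⟩⟩
    · refine ⟨Sinv_vt j, Or.inl ?_⟩
      have := isWeightedHomogeneous_X (ZMod 4) wt ((j, 2) : Fin n × Fin 3)
      exact this
  | one => exact ⟨Sinv_one, Or.inl (isWeightedHomogeneous_one _ _)⟩
  | mul x z _ _ hx hz =>
    obtain ⟨hx1, hx2⟩ := hx
    obtain ⟨hz1, hz2⟩ := hz
    refine ⟨hx1.mul hz1, ?_⟩
    rcases hx2 with hx2 | ⟨j, k, x', rfl, hx'⟩
    · rcases hz2 with hz2 | ⟨j, k, z', rfl, hz'⟩
      · exact Or.inl (by simpa using hx2.mul hz2)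
      · exact Or.inr ⟨j, k, x * z', by ring, hx1.mul hz'⟩
    · exact Or.inr ⟨j, k, x' * z, by ring, hx'.mul hz1⟩

/-- The key parity statement. -/
lemma top_even (N : P n) (hN : Sinv N) (d : ℕ) (hd : d ≠ 2 * n)
    (hN2 : IsWeightedHomogeneous wt N d) (g : P n) (hg : g ∈ Subring.closure (gens n)) :
    top (2 * N * g) = 0 := by
  rw [Subring.mem_closure_iff] at hg
  induction hg using AddSubgroup.closure_induction with
  | mem x hx =>
    obtain ⟨_, h2 | ⟨j, k, x', rfl, hx'⟩⟩ := mon_spec x hx
    · have h3 : IsWeightedHomogeneous wt (2 * N * x) (d + 0) := by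
        have h4 : IsWeightedHomogeneous wt (2 : P n) 0 := by
          have h5 : (2 : P n) = C (2 : ZMod 4) := (map_ofNat C 2).symm
          rw [h5]
          exact isWeightedHomogeneous_C _ _
        have := (h4.mul hN2).mul h2
        simpa using this
      refine h3.coeff_eq_zero _ ?_
      rw [weight_ones]
      simpa using hd.symm
    · have h3 : top (2 * N * (va k * vb j * x')) = top (2 * N * (va j * vb k * x')) := by
        rw [← top_sg (2 * N * (va k * vb j * x'))]
        congr 1
        have h4 : sg (2 * N * (va k * vb j * x')) = 2 * sg N * (vb k * va j * sg x') := by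
          simp only [map_mul, sg_va, sg_vb]
          congr 2
          exact map_ofNat sg 2
        rw [h4]
        unfold Sinv at hN hx'
        linear_combination (vb k * va j * sg x') * hN + N * vb k * va j * hx'
      have h5 : 2 * N * (y j k * x') = 2 * N * (va j * vb k * x') - 2 * N * (va k * vb j * x') := by
        unfold y; ring
      rw [h5, top_sub, h3, sub_self]
  | zero => rw [mul_zero, top_zero]
  | add x z _ _ hx hz => rw [mul_add, top_add, hx, hz, add_zero]
  | neg x _ hx => rw [mul_neg, top_neg, hx, neg_zero]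

/-- The ideal of the elements which are orthogonal to everything. -/
def nI (n : ℕ) : Ideal (P n) where
  carrier := {f | ∀ g, top (f * g) = 0}
  zero_mem' := fun g => by rw [zero_mul, top_zero]
  add_mem' := fun {a b} ha hb g => by rw [add_mul, top_add, ha, hb, add_zero]
  smul_mem' := fun c x hx g => by
    have : c • x * g = x * (c * g) := by rw [smul_eq_mul]; ring
    rw [this]; exact hx _

lemma mem_nI {f : P n} : f ∈ nI n ↔ ∀ g, top (f * g) = 0 := Iff.rfl

lemma sq_mem (i : Fin n × Fin 3) : X i * X i ∈ nI n := fun g => top_sq i g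

lemma sq_sum {R : Type*} [CommRing R] {ι : Type*} (s : Finset ι) (x : ι → R)
    (hx : ∀ i ∈ s, x i * x i = 0) : ∃ α, (∑ i ∈ s, x i) * (∑ i ∈ s, x i) = 2 * α := by
  classical
  induction s using Finset.induction_on with
  | empty => exact ⟨0, by simp⟩
  | insert a s ha ih =>
    obtain ⟨α, hα⟩ := ih fun i hi => hx i (Finset.mem_insert_of_mem hi)
    refine ⟨x a * (∑ i ∈ s, x i) + α, ?_⟩
    rw [Finset.sum_insert ha]
    linear_combination hx a (Finset.mem_insert_self a s) + hα

/-- The linear forms. -/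
noncomputable def al (u : Fin n → ℤ) : P n := ∑ j, ((u j : ℤ) : P n) * va j
noncomputable def be (u : Fin n → ℤ) : P n := ∑ j, ((u j : ℤ) : P n) * vb j

lemma form_eq (u v : Fin n → ℤ) :
    ∑ j, ∑ k, ((u j : ℤ) : P n) * ((v k : ℤ) : P n) * y j k = al u * be v - al v * be u := by
  have h1 : ∑ j, ∑ k, ((u j : ℤ) : P n) * ((v k : ℤ) : P n) * y j k =
      (∑ j, ∑ k, (((u j : ℤ) : P n) * va j) * (((v k : ℤ) : P n) * vb k)) -
      ∑ j, ∑ k, (((u j : ℤ) : P n) * vb j) * (((v k : ℤ) : P n) * va k) := by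
    rw [← Finset.sum_sub_distrib]
    refine Finset.sum_congr rfl fun j _ => ?_
    rw [← Finset.sum_sub_distrib]
    refine Finset.sum_congr rfl fun k _ => ?_
    unfold y; ring
  rw [h1, ← Finset.sum_mul_sum, ← Finset.sum_mul_sum, al, be, al, be]
  ring

lemma al_sq (u : Fin n → ℤ) : ∃ α, Ideal.Quotient.mk (nI n) (al u) * Ideal.Quotient.mk (nI n) (al u)
    = 2 * α := by
  rw [al, map_sum]
  refine sq_sum _ _ fun j _ => ?_
  rw [← map_mul, Ideal.Quotient.eq_zero_iff_mem]
  have : ((u j : ℤ) : P n) * va j * (((u j : ℤ) : P n) * va j) =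
      ((u j : ℤ) * (u j : ℤ) : P n) * (X (j, 0) * X (j, 0)) := by
    unfold va; ring
  rw [this]
  exact Ideal.mul_mem_left _ _ (sq_mem _)

lemma be_sq (u : Fin n → ℤ) : ∃ α, Ideal.Quotient.mk (nI n) (be u) * Ideal.Quotient.mk (nI n) (be u)
    = 2 * α := by
  rw [be, map_sum]
  refine sq_sum _ _ fun j _ => ?_
  rw [← map_mul, Ideal.Quotient.eq_zero_iff_mem]
  have : ((u j : ℤ) : P n) * vb j * (((u j : ℤ) : P n) * vb j) =
      ((u j : ℤ) * (u j : ℤ) : P n) * (X (j, 1) * X (j, 1)) := by
    unfold vb; ring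
  rw [this]
  exact Ideal.mul_mem_left _ _ (sq_mem _)

/-- The value of a closed chain product. -/
lemma chain_mem (m : ℕ) (hm : 2 ≤ m) (u : ℕ → Fin n → ℤ) :
    (∏ i ∈ Finset.range m, (al (u i) * be (u ((i + 1) % m)) - al (u ((i + 1) % m)) * be (u i))) -
      (1 + (-1) ^ m) * ∏ i ∈ Finset.range m, al (u i) * be (u i) ∈ nI n := by
  rw [← Ideal.Quotient.eq_zero_iff_mem]
  have h4 : (4 : P n ⧸ nI n) = 0 := by
    have : (4 : P n ⧸ nI n) = Ideal.Quotient.mk (nI n) 4 := (map_ofNat _ 4).symm
    rw [this, four, map_zero]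
  have h := closed_chain h4 (fun i => Ideal.Quotient.mk (nI n) (al (u i)))
    (fun i => Ideal.Quotient.mk (nI n) (be (u i))) (fun i => al_sq (u i)) (fun i => be_sq (u i))
    m hm
  simp only [map_sub, map_prod, map_mul, map_add, map_one, map_pow, map_neg]
  rw [h, sub_self]

lemma wh_al (u : Fin n → ℤ) : IsWeightedHomogeneous wt (al u) 1 := by
  unfold al
  refine IsWeightedHomogeneous.sum _ _ _ fun j _ => ?_
  have h1 : IsWeightedHomogeneous wt (((u j : ℤ) : P n)) 0 := by
    have h5 : ((u j : ℤ) : P n) = C ((u j : ℤ) : ZMod 4) := (map_intCast (C : ZMod 4 →+* P n) (u j)).symm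
    rw [h5]
    exact isWeightedHomogeneous_C _ _
  have h2 := isWeightedHomogeneous_X (ZMod 4) wt ((j, 0) : Fin n × Fin 3)
  have h3 := h1.mul h2
  have h4 : 0 + wt ((j, 0) : Fin n × Fin 3) = 1 := rfl
  rw [h4] at h3
  exact h3

lemma wh_be (u : Fin n → ℤ) : IsWeightedHomogeneous wt (be u) 1 := by
  unfold be
  refine IsWeightedHomogeneous.sum _ _ _ fun j _ => ?_
  have h1 : IsWeightedHomogeneous wt (((u j : ℤ) : P n)) 0 := by
    have h5 : ((u j : ℤ) : P n) = C ((u j : ℤ) : ZMod 4) := (map_intCast (C : ZMod 4 →+* P n) (u j)).symm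
    rw [h5]
    exact isWeightedHomogeneous_C _ _
  have h2 := isWeightedHomogeneous_X (ZMod 4) wt ((j, 1) : Fin n × Fin 3)
  have h3 := h1.mul h2
  have h4 : 0 + wt ((j, 1) : Fin n × Fin 3) = 1 := rfl
  rw [h4] at h3
  exact h3

lemma sg_al (u : Fin n → ℤ) : sg (al u) = be u := by
  unfold al be
  rw [map_sum]
  refine Finset.sum_congr rfl fun j _ => ?_
  rw [map_mul, map_intCast, sg_va]

lemma sg_be (u : Fin n → ℤ) : sg (be u) = al u := by
  unfold al be
  rw [map_sum]
  refine Finset.sum_congr rfl fun j _ => ?_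
  rw [map_mul, map_intCast, sg_vb]

lemma Sinv_ab (u : Fin n → ℤ) : Sinv (al u * be u) := by
  unfold Sinv
  rw [map_mul, sg_al, sg_be]; ring

/-- The closed chain products of length `m ≠ n` are orthogonal to the test ring. -/
lemma top_chain (m : ℕ) (hm : 2 ≤ m) (hmn : m ≠ n) (u : ℕ → Fin n → ℤ) (g : P n)
    (hg : g ∈ Subring.closure (gens n)) :
    top ((∏ i ∈ Finset.range m,
      (al (u i) * be (u ((i + 1) % m)) - al (u ((i + 1) % m)) * be (u i))) * g) = 0 := by
  have h1 := chain_mem m hm u g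
  rw [sub_mul, top_sub, sub_eq_zero] at h1
  rw [h1]
  have hN : Sinv (∏ i ∈ Finset.range m, al (u i) * be (u i)) :=
    Sinv_prod _ _ fun i _ => Sinv_ab (u i)
  have hN2 : IsWeightedHomogeneous wt (∏ i ∈ Finset.range m, al (u i) * be (u i)) (2 * m) := by
    have h2 := IsWeightedHomogeneous.prod (Finset.range m) (fun i => al (u i) * be (u i))
      (fun _ => 2) (fun i _ => (wh_al (u i)).mul (wh_be (u i)))
    simpa [mul_comm] using h2
  rcases Nat.even_or_odd m with he | ho
  · rw [he.neg_one_pow]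
    have h3 := top_even _ hN (2 * m) (by omega) hN2 g hg
    have h4 : (1 + 1 : P n) = 2 := by norm_num
    rw [h4]
    exact h3
  · rw [ho.neg_one_pow, add_neg_cancel, zero_mul, zero_mul, top_zero]

lemma top_two (hn : n ≠ 0) (g : P n) (hg : g ∈ Subring.closure (gens n)) :
    top (2 * g) = 0 := by
  have h := top_even (1 : P n) Sinv_one 0 (by omega) (isWeightedHomogeneous_one _ _) g hg
  rwa [mul_one] at h

/-- The ring generated by the entries of the form and the `t j`. -/
noncomputable abbrev S (n : ℕ) : Subring (P n) := Subring.closure (gens n)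

/-- The ideal of the elements of `S` orthogonal to `S`. -/
noncomputable def oI (n : ℕ) : Ideal (S n) where
  carrier := {f | ∀ g : S n, top ((f : P n) * (g : P n)) = 0}
  zero_mem' := fun g => by
    have : ((0 : S n) : P n) = 0 := rfl
    rw [this, zero_mul, top_zero]
  add_mem' := fun {a b} ha hb g => by
    have : ((a + b : S n) : P n) = (a : P n) + b := rfl
    rw [this, add_mul, top_add, ha, hb, add_zero]
  smul_mem' := fun c x hx g => by
    have h : ((c • x : S n) : P n) * (g : P n) = (x : P n) * ((c * g : S n) : P n) := by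
      rw [smul_eq_mul]; push_cast; ring
    rw [h]; exact hx _

lemma mem_oI {f : S n} : f ∈ oI n ↔ ∀ g : S n, top ((f : P n) * (g : P n)) = 0 := Iff.rfl

/-- The entries of the form in `S`. -/
noncomputable def yS (j k : Fin n) : S n :=
  ⟨y j k, Subring.subset_closure (Or.inl ⟨j, k, rfl⟩)⟩

/-- The `t j` in `S`. -/
noncomputable def tS (i : ℕ) : S n :=
  if h : i < n then ⟨vt ⟨i, h⟩, Subring.subset_closure (Or.inr ⟨_, rfl⟩)⟩ else 0

/-- The form with values in `S`. -/
noncomputable def fS (u v : Fin n → ℤ) : S n := ∑ j, ∑ k, ((u j : ℤ) : S n) * ((v k : ℤ) : S n) * yS j k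

lemma coe_fS (u v : Fin n → ℤ) : ((fS u v : S n) : P n) = al u * be v - al v * be u := by
  rw [← form_eq, fS]
  push_cast
  rfl

lemma al_ev {i : ℕ} (h : i < n) : al (Aff.ev n i) = (va ⟨i, h⟩ : P n) := by
  unfold al Aff.ev
  rw [Finset.sum_eq_single (⟨i, h⟩ : Fin n)]
  · simp
  · intro j _ hj
    rw [if_neg (fun h => hj (Fin.ext h))]
    simp
  · intro h; exact absurd (Finset.mem_univ _) h

lemma be_ev {i : ℕ} (h : i < n) : be (Aff.ev n i) = (vb ⟨i, h⟩ : P n) := by
  unfold be Aff.ev
  rw [Finset.sum_eq_single (⟨i, h⟩ : Fin n)]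
  · simp
  · intro j _ hj
    rw [if_neg (fun h => hj (Fin.ext h))]
    simp
  · intro h; exact absurd (Finset.mem_univ _) h

lemma top_full : top (∏ i ∈ Finset.range n,
    ((tS i : S n) : P n) * (al (Aff.ev n i) * be (Aff.ev n i))) = 1 := by
  have h1 : ∏ i ∈ Finset.range n, ((tS i : S n) : P n) * (al (Aff.ev n i) * be (Aff.ev n i)) =
      ∏ j : Fin n, (vt j * (va j * vb j)) := by
    rw [Finset.prod_range]
    refine Finset.prod_congr rfl fun j _ => ?_
    rw [al_ev j.2, be_ev j.2, tS, dif_pos j.2]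
  have h2 : ∏ j : Fin n, (vt j * (va j * vb j)) = monomial (ones n) (1 : ZMod 4) := by
    have h3 : (monomial (ones n) (1 : ZMod 4)) = ∏ i : Fin n × Fin 3, (X i : P n) := by
      rw [monomial_eq, C_1, one_mul, Finsupp.prod_fintype _ _ (by simp)]
      simp
    rw [h3, Fintype.prod_prod_type]
    refine Finset.prod_congr rfl fun j _ => ?_
    rw [Fin.prod_univ_three]
    unfold va vb vt
    ring
  rw [h1, h2, top, coeff_monomial, if_pos rfl]

/-- The test ring exists. -/
theorem exists_ring (hn : Even n) (hn4 : 4 ≤ n) :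
    ∃ (Λ : Type) (_ : CommRing Λ) (Y : Fin n → Fin n → Λ) (t : ℕ → Λ),
      (2 : Λ) = 0 ∧ (∀ j k, Y k j = - Y j k) ∧ (∀ j, Y j j = 0) ∧
      (∀ m, 3 ≤ m → m ≠ n → ∀ u : ℕ → Fin n → ℤ,
        ∏ i ∈ Finset.range m, Aff.zf Y (u i) (u ((i + 1) % m)) = 0) ∧
      (∀ i, t i * t i = 0) ∧
      (∏ i ∈ Finset.range n, t i) *
        ∏ i ∈ Finset.range n, Aff.zf Y (Aff.ev n i) (Aff.ev n ((i + 1) % n)) ≠ 0 := by
  refine ⟨S n ⧸ oI n, inferInstance, fun j k => Ideal.Quotient.mk _ (yS j k),
    fun i => Ideal.Quotient.mk _ (tS i), ?_, fun j k => ?_, fun j => ?_, fun m hm hmn u => ?_,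
    fun i => ?_, ?_⟩
  · have : (2 : S n ⧸ oI n) = Ideal.Quotient.mk (oI n) 2 := (map_ofNat _ 2).symm
    rw [this, Ideal.Quotient.eq_zero_iff_mem, mem_oI]
    intro g
    exact top_two (by omega) _ g.2
  · have h : yS k j = - yS j k := by
      apply Subtype.ext
      change y k j = - y j k
      unfold y; ring
    change Ideal.Quotient.mk (oI n) (yS k j) = - Ideal.Quotient.mk (oI n) (yS j k)
    rw [h, map_neg]
  · have h : yS j j = 0 := by
      apply Subtype.ext
      change y j j = 0
      unfold y; ring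
    change Ideal.Quotient.mk (oI n) (yS j j) = 0
    rw [h, map_zero]
  · have h1 : ∀ u v : Fin n → ℤ, Aff.zf (fun j k => Ideal.Quotient.mk (oI n) (yS j k)) u v =
        Ideal.Quotient.mk (oI n) (fS u v) := by
      intro u v
      simp only [Aff.zf, fS, map_sum, map_mul, map_intCast]
    simp only [h1]
    rw [← map_prod, Ideal.Quotient.eq_zero_iff_mem, mem_oI]
    intro g
    have h2 : ((∏ i ∈ Finset.range m, fS (u i) (u ((i + 1) % m)) : S n) : P n) =
        ∏ i ∈ Finset.range m,
          (al (u i) * be (u ((i + 1) % m)) - al (u ((i + 1) % m)) * be (u i)) := by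
      push_cast
      exact Finset.prod_congr rfl fun i _ => coe_fS _ _
    rw [h2]
    exact top_chain m (by omega) hmn u g g.2
  · rw [← map_mul, Ideal.Quotient.eq_zero_iff_mem, mem_oI]
    intro g
    unfold tS
    split_ifs with h
    · exact top_sq (⟨i, h⟩, 2) g
    · have : ((0 * 0 : S n) : P n) * (g : P n) = 0 := by simp
      rw [this, top_zero]
  · have h1 : ∀ u v : Fin n → ℤ, Aff.zf (fun j k => Ideal.Quotient.mk (oI n) (yS j k)) u v =
        Ideal.Quotient.mk (oI n) (fS u v) := by
      intro u v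
      simp only [Aff.zf, fS, map_sum, map_mul, map_intCast]
    simp only [h1]
    rw [← map_prod, ← map_prod, ← map_mul, Ne, Ideal.Quotient.eq_zero_iff_mem, mem_oI]
    intro hcon
    have h2 := hcon 1
    have h3 : (((∏ i ∈ Finset.range n, tS i) *
        ∏ i ∈ Finset.range n, fS (Aff.ev n i) (Aff.ev n ((i + 1) % n)) : S n) : P n) *
          ((1 : S n) : P n) =
        (∏ i ∈ Finset.range n, (al (Aff.ev n i) * be (Aff.ev n ((i + 1) % n)) -
          al (Aff.ev n ((i + 1) % n)) * be (Aff.ev n i))) *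
            ∏ i ∈ Finset.range n, ((tS i : S n) : P n) := by
      push_cast
      rw [mul_one, mul_comm]
      congr 1
      exact Finset.prod_congr rfl fun i _ => coe_fS _ _
    rw [h3] at h2
    have h4 := chain_mem n (by omega) (fun i => Aff.ev n i)
      (∏ i ∈ Finset.range n, ((tS i : S n) : P n))
    rw [sub_mul, top_sub, h2, zero_sub, neg_eq_zero, hn.neg_one_pow] at h4
    have h5 : (1 + 1) * (∏ i ∈ Finset.range n, al (Aff.ev n i) * be (Aff.ev n i)) *
        (∏ i ∈ Finset.range n, ((tS i : S n) : P n)) =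
        (∏ i ∈ Finset.range n, ((tS i : S n) : P n) * (al (Aff.ev n i) * be (Aff.ev n i))) +
        (∏ i ∈ Finset.range n, ((tS i : S n) : P n) * (al (Aff.ev n i) * be (Aff.ev n i))) := by
      have h6 : (∏ i ∈ Finset.range n, ((tS i : S n) : P n) *
          (al (Aff.ev n i) * be (Aff.ev n i))) = (∏ i ∈ Finset.range n, ((tS i : S n) : P n)) *
          ∏ i ∈ Finset.range n, al (Aff.ev n i) * be (Aff.ev n i) :=
        Finset.prod_mul_distrib
      rw [h6]
      generalize (∏ i ∈ Finset.range n, ((tS i : S n) : P n)) = A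
      generalize (∏ i ∈ Finset.range n, al (Aff.ev n i) * be (Aff.ev n i)) = B
      ring
    rw [h5, top_add, top_full] at h4
    exact absurd h4 (by decide)

end TR

end Pool.Agent.Lib.MP_3fd305_al.Six
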