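import Mathlib

/-!
# Laws and varieties of groups
-/

namespace Pool.Agent.Lib.MP_3fd305_al.Six

/-- The word `w` (in the variables `0, 1, 2, ...`) is a law of the group `G`. -/
def IsLaw (w : FreeGroup ℕ) (G : Type*) [Group G] : Prop :=
  ∀ g : ℕ → G, FreeGroup.lift g w = 1

/-- The group `G` belongs to the variety defined by the set `V` of words. -/
def InVariety (V : Set (FreeGroup ℕ)) (G : Type*) [Group G] : Prop := ∀ w ∈ V, IsLaw w G

/-- The group `G` has an abelian normal subgroup `K` such that `G ⧸ K` is nilpotent of class at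
most `c`. -/
def IsAN (c : ℕ) (G : Type*) [Group G] : Prop :=
  ∃ (K : Subgroup G) (_ : K.Normal), (∀ a ∈ K, ∀ b ∈ K, a * b = b * a) ∧
    (⊤ : Subgroup (G ⧸ K)).lowerCentralSeries c = ⊥

end Pool.Agent.Lib.MP_3fd305_al.Six
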