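import Pool.Agent.Lib.MP_3fd305_al.Six.VDefs
import Pool.Agent.Lib.MP_3fd305_al.Six.Ring

/-!
# Varieties: assembly
-/

open scoped commutatorElement

namespace Pool.Agent.Lib.MP_3fd305_al.Six

universe u

/-! ### Left-normed commutators and the lower central series -/

lemma lnc_congr {G : Type*} [Group G] (y y' : ℕ → G) (k : ℕ) (h : ∀ i ≤ k, y i = y' i) :
    lnc y k = lnc y' k := by
  induction k with
  | zero => exact h 0 le_rfl
  | succ k ih =>
    rw [lnc, lnc, ih fun i hi => h i (by omega), h (k + 1) le_rfl]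

/-- The left-normed commutators of weight `k + 1`. -/
def lncSet (G : Type*) [Group G] (k : ℕ) : Set G := Set.range fun y : ℕ → G => lnc y k

lemma closure_normal_of_conj {G : Type*} [Group G] (s : Set G)
    (hs : ∀ x ∈ s, ∀ g : G, g * x * g⁻¹ ∈ s) : (Subgroup.closure s).Normal := by
  constructor
  intro n hn g
  induction hn using Subgroup.closure_induction with
  | mem x hx => exact Subgroup.subset_closure (hs x hx g)
  | one => rw [mul_one, mul_inv_cancel]; exact Subgroup.one_mem _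
  | mul x y _ _ hx hy =>
    have : g * (x * y) * g⁻¹ = (g * x * g⁻¹) * (g * y * g⁻¹) := by group
    rw [this]; exact Subgroup.mul_mem _ hx hy
  | inv x _ hx =>
    have : g * x⁻¹ * g⁻¹ = (g * x * g⁻¹)⁻¹ := by group
    rw [this]; exact Subgroup.inv_mem _ hx

lemma lncSet_conj {G : Type*} [Group G] (k : ℕ) :
    ∀ x ∈ lncSet G k, ∀ g : G, g * x * g⁻¹ ∈ lncSet G k := by
  rintro x ⟨y, rfl⟩ g
  refine ⟨fun i => (MulAut.conj g).toMonoidHom (y i), ?_⟩
  change lnc _ k = _
  rw [← map_lnc]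
  rfl

lemma comm_mem_closure {G : Type*} [Group G] (k : ℕ) (p q : G)
    (hp : p ∈ Subgroup.closure (lncSet G k)) : ⁅p, q⁆ ∈ Subgroup.closure (lncSet G (k + 1)) := by
  have hN := closure_normal_of_conj (lncSet G (k + 1)) (lncSet_conj (k + 1))
  induction hp using Subgroup.closure_induction with
  | mem x hx =>
    obtain ⟨y, rfl⟩ := hx
    apply Subgroup.subset_closure
    refine ⟨fun i => if i ≤ k then y i else q, ?_⟩
    change ⁅lnc _ k, if k + 1 ≤ k then y (k + 1) else q⁆ = _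
    rw [lnc_congr _ y k fun i hi => by rw [if_pos hi], if_neg (by omega)]
  | one => rw [commutatorElement_one_left]; exact Subgroup.one_mem _
  | mul x y _ _ hx hy =>
    have h1 : ⁅x * y, q⁆ = x * ⁅y, q⁆ * x⁻¹ * ⁅x, q⁆ := by
      simp only [commutatorElement_def]; group
    rw [h1]
    exact Subgroup.mul_mem _ (hN.conj_mem _ hy x) hx
  | inv x _ hx =>
    have h1 : ⁅x⁻¹, q⁆ = x⁻¹ * ⁅x, q⁆⁻¹ * x⁻¹⁻¹ := by
      simp only [commutatorElement_def]; group
    rw [h1]
    exact hN.conj_mem _ (Subgroup.inv_mem _ hx) x⁻¹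

lemma lcs_le (G : Type*) [Group G] (k : ℕ) :
    (⊤ : Subgroup G).lowerCentralSeries k ≤ Subgroup.closure (lncSet G k) := by
  induction k with
  | zero =>
    intro x _
    exact Subgroup.subset_closure ⟨fun _ => x, rfl⟩
  | succ k ih =>
    rw [Subgroup.lowerCentralSeries_succ, Subgroup.commutator_le]
    intro p hp q _
    exact comm_mem_closure k p q (ih hp)

/-- A group in which the left-normed commutators of weight `7` commute lies in `𝔄𝔑₆`. -/
lemma isAN_of_delta {G : Type*} [Group G] (h : ∀ y y' : ℕ → G, ⁅lnc y 6, lnc y' 6⁆ = 1) :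
    IsAN 6 G := by
  have hN : (Subgroup.closure (lncSet G 6)).Normal :=
    closure_normal_of_conj (lncSet G 6) (lncSet_conj 6)
  refine ⟨Subgroup.closure (lncSet G 6), hN, ?_, ?_⟩
  · have h1 : Subgroup.closure (lncSet G 6) ≤ Subgroup.centralizer (lncSet G 6) := by
      rw [Subgroup.closure_le]
      rintro x ⟨y, rfl⟩
      rw [SetLike.mem_coe, Subgroup.mem_centralizer_iff]
      rintro z ⟨y', rfl⟩
      exact commutatorElement_eq_one_iff_mul_comm.1 (h y' y)
    intro a ha b hb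
    induction ha using Subgroup.closure_induction with
    | mem x hx => exact Subgroup.mem_centralizer_iff.1 (h1 hb) x hx
    | one => rw [one_mul, mul_one]
    | mul x y _ _ hx hy => rw [mul_assoc, hy, ← mul_assoc, hx, mul_assoc]
    | inv x _ hx =>
      have : x⁻¹ * b = b * x⁻¹ := by
        rw [inv_mul_eq_iff_eq_mul, ← mul_assoc, hx, mul_assoc, mul_inv_cancel, mul_one]
      exact this
  · rw [eq_bot_iff]
    refine (lcs_le _ 6).trans ?_
    rw [Subgroup.closure_le]
    rintro x ⟨y, rfl⟩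
    obtain ⟨y', hy'⟩ : ∃ y' : ℕ → G, (fun i => (QuotientGroup.mk' _ (y' i))) = y :=
      ⟨fun i => (y i).out, by funext i; exact Quotient.out_eq' (y i)⟩
    subst hy'
    change lnc _ 6 ∈ (⊥ : Subgroup _)
    rw [← map_lnc, Subgroup.mem_bot]
    exact (QuotientGroup.eq_one_iff _).2 (Subgroup.subset_closure ⟨y', rfl⟩)

/-! ### The words -/

/-- The word expressing that left-normed commutators of weight `7` commute. -/
def dW : FreeGroup ℕ :=
  ⁅lnc (fun i => FreeGroup.of (2 * i)) 6, lnc (fun i => FreeGroup.of (2 * i + 1)) 6⁆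

/-- The closed chain words. -/
def cW (m : ℕ) : FreeGroup ℕ :=
  chn (fun i => FreeGroup.of (4 * i)) (fun i => FreeGroup.of (4 * i + 1))
    (fun i => FreeGroup.of (4 * i + 2)) (fun i => FreeGroup.of (4 * i + 3)) m m

lemma isLaw_dW {G : Type*} [Group G] : IsLaw dW G ↔ ∀ y y' : ℕ → G, ⁅lnc y 6, lnc y' 6⁆ = 1 := by
  constructor
  · intro h y y'
    have h1 := h (fun i => if i % 2 = 0 then y (i / 2) else y' (i / 2))
    rw [dW, map_commutatorElement, map_lnc, map_lnc] at h1
    rw [← h1]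
    congr 2
    · funext i
      rw [FreeGroup.lift_apply_of, if_pos (by omega)]
      congr 1; omega
    · funext i
      rw [FreeGroup.lift_apply_of, if_neg (by omega)]
      congr 1; omega
  · intro h g
    rw [dW, map_commutatorElement, map_lnc, map_lnc]
    exact h _ _

lemma isLaw_cW {G : Type*} [Group G] (m : ℕ) :
    IsLaw (cW m) G ↔ ∀ y x s t : ℕ → G, chn y x s t m m = 1 := by
  constructor
  · intro h y x s t
    have h1 := h (fun i => if i % 4 = 0 then y (i / 4) else if i % 4 = 1 then x (i / 4) else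
      if i % 4 = 2 then s (i / 4) else t (i / 4))
    rw [cW, map_chn] at h1
    rw [← h1]
    congr 1
    · funext i
      rw [FreeGroup.lift_apply_of, if_pos (by omega)]
      congr 1; omega
    · funext i
      rw [FreeGroup.lift_apply_of, if_neg (by omega), if_pos (by omega)]
      congr 1; omega
    · funext i
      rw [FreeGroup.lift_apply_of, if_neg (by omega), if_neg (by omega), if_pos (by omega)]
      congr 1; omega
    · funext i
      rw [FreeGroup.lift_apply_of, if_neg (by omega), if_neg (by omega), if_neg (by omega)]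
      congr 1; omega
  · intro h g
    rw [cW, map_chn]
    exact h _ _ _ _

/-! ### Consequences of laws -/

/-- The verbal subgroup of the free group. -/
def vs (V : Set (FreeGroup ℕ)) : Subgroup (FreeGroup ℕ) :=
  Subgroup.closure {x | ∃ v ∈ V, ∃ f : ℕ → FreeGroup ℕ, FreeGroup.lift f v = x}

lemma lift_comp {G G' : Type*} [Group G] [Group G'] (φ : G →* G') (f : ℕ → G) (v : FreeGroup ℕ) :
    φ (FreeGroup.lift f v) = FreeGroup.lift (fun i => φ (f i)) v := by
  have : φ.comp (FreeGroup.lift f) = FreeGroup.lift (fun i => φ (f i)) := by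
    ext i; simp
  rw [← this]; rfl

lemma vs_normal (V : Set (FreeGroup ℕ)) : (vs V).Normal := by
  apply closure_normal_of_conj
  rintro x ⟨v, hv, f, rfl⟩ g
  refine ⟨v, hv, fun i => (MulAut.conj g).toMonoidHom (f i), ?_⟩
  rw [← lift_comp]; rfl

lemma vs_mono {V V' : Set (FreeGroup ℕ)} (h : V ⊆ V') : vs V ≤ vs V' := by
  apply Subgroup.closure_mono
  rintro x ⟨v, hv, f, rfl⟩
  exact ⟨v, h hv, f, rfl⟩

lemma isLaw_of_mem_vs {V : Set (FreeGroup ℕ)} {w : FreeGroup ℕ} (hw : w ∈ vs V) {G : Type*}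
    [Group G] (hG : InVariety V G) : IsLaw w G := by
  intro g
  induction hw using Subgroup.closure_induction with
  | mem x hx =>
    obtain ⟨v, hv, f, rfl⟩ := hx
    rw [lift_comp]
    exact hG v hv _
  | one => exact map_one _
  | mul x y _ _ hx hy => rw [map_mul, hx, hy, one_mul]
  | inv x _ hx => rw [map_inv, hx, inv_one]

lemma mem_vs_of_isLaw {V : Set (FreeGroup ℕ)} {w : FreeGroup ℕ}
    (h : ∀ (G : Type) [Group G], InVariety V G → IsLaw w G) : w ∈ vs V := by
  have := vs_normal V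
  have h1 : InVariety V (FreeGroup ℕ ⧸ vs V) := by
    intro v hv g
    obtain ⟨f, hf⟩ : ∃ f : ℕ → FreeGroup ℕ, (fun i => (QuotientGroup.mk' (vs V) (f i))) = g :=
      ⟨fun i => (g i).out, by funext i; exact Quotient.out_eq' (g i)⟩
    rw [← hf, ← lift_comp]
    exact (QuotientGroup.eq_one_iff _).2 (Subgroup.subset_closure ⟨v, hv, f, rfl⟩)
  have h2 := h _ h1 (fun i => QuotientGroup.mk' (vs V) (FreeGroup.of i))
  rw [← lift_comp] at h2
  have h3 : FreeGroup.lift (fun i => FreeGroup.of i) w = w := by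
    have : FreeGroup.lift (fun i : ℕ => FreeGroup.of i) = MonoidHom.id _ := by
      ext i; simp
    rw [this]; rfl
  rw [h3] at h2
  exact (QuotientGroup.eq_one_iff _).1 h2

/-- Compactness. -/
lemma mem_vs_iUnion (V : ℕ → Set (FreeGroup ℕ)) (hV : Monotone V) (w : FreeGroup ℕ)
    (hw : w ∈ vs (⋃ k, V k)) : ∃ k, w ∈ vs (V k) := by
  induction hw using Subgroup.closure_induction with
  | mem x hx =>
    obtain ⟨v, hv, f, rfl⟩ := hx
    obtain ⟨k, hk⟩ := Set.mem_iUnion.1 hv
    exact ⟨k, Subgroup.subset_closure ⟨v, hk, f, rfl⟩⟩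
  | one => exact ⟨0, Subgroup.one_mem _⟩
  | mul x y _ _ hx hy =>
    obtain ⟨k, hk⟩ := hx
    obtain ⟨l, hl⟩ := hy
    exact ⟨max k l, Subgroup.mul_mem _ (vs_mono (hV (le_max_left k l)) hk)
      (vs_mono (hV (le_max_right k l)) hl)⟩
  | inv x _ hx =>
    obtain ⟨k, hk⟩ := hx
    exact ⟨k, Subgroup.inv_mem _ hk⟩

/-! ### The main theorem -/

/-- The test groups. -/
theorem exists_test (k : ℕ) : ∃ (G : Type) (_ : Group G), IsLaw dW G ∧
    (∀ l, l ≠ k → IsLaw (cW (2 * l + 4)) G) ∧ ¬ IsLaw (cW (2 * k + 4)) G := by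
  obtain ⟨Λ, _, Y, t, h2, hY, hY0, hcl, ht, hne⟩ :=
    TR.exists_ring (n := 2 * k + 4) ⟨k + 2, by ring⟩ (by omega)
  obtain ⟨G, _, h3, h4, h5⟩ := Aff.exists_group h2 Y hY hY0 hcl t ht hne
  refine ⟨G, inferInstance, isLaw_dW.2 h3, fun l hl => (isLaw_cW _).2 (h4 _ (by omega) (by omega)),
    fun h => ?_⟩
  obtain ⟨y, x, s, t, h6⟩ := h5
  exact h6 ((isLaw_cW _).1 h y x s t)

/-- The sets of words. -/
def VA (A : Set ℕ) : Set (FreeGroup ℕ) := {dW} ∪ (fun l => cW (2 * l + 4)) '' A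

lemma inVariety_VA {A : Set ℕ} {G : Type*} [Group G] :
    InVariety (VA A) G ↔ IsLaw dW G ∧ ∀ l ∈ A, IsLaw (cW (2 * l + 4)) G := by
  constructor
  · intro h
    exact ⟨h _ (Or.inl rfl), fun l hl => h _ (Or.inr ⟨l, hl, rfl⟩)⟩
  · rintro ⟨h1, h2⟩ w (hw | ⟨l, hl, rfl⟩)
    · rw [hw]; exact h1
    · exact h2 l hl

theorem main : ∃ 𝒱 : Set ℕ → Set (FreeGroup ℕ),
    (∀ (A : Set ℕ) (G : Type u) [Group G], InVariety (𝒱 A) G → IsAN 6 G) ∧
    (∀ A B : Set ℕ, (∀ (G : Type) [Group G], InVariety (𝒱 A) G ↔ InVariety (𝒱 B) G) → A = B) ∧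
    (∀ A : Set ℕ, A.Infinite → ∀ W : Set (FreeGroup ℕ), W.Finite →
      ¬ ∀ (G : Type) [Group G], InVariety (𝒱 A) G ↔ InVariety W G) := by
  refine ⟨VA, fun A G _ h => isAN_of_delta (isLaw_dW.1 (inVariety_VA.1 h).1), ?_, ?_⟩
  · have key : ∀ A B : Set ℕ,
        (∀ (G : Type) [Group G], InVariety (VA A) G ↔ InVariety (VA B) G) → A ⊆ B := by
      intro A B h k hk
      by_contra hkB
      obtain ⟨G, _, h1, h2, h3⟩ := exists_test k
      have h4 : InVariety (VA B) G :=
        inVariety_VA.2 ⟨h1, fun l hl => h2 l fun hlk => hkB (hlk ▸ hl)⟩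
      exact h3 ((inVariety_VA.1 ((h G).2 h4)).2 k hk)
    intro A B h
    exact Set.Subset.antisymm (key A B h) (key B A fun G _ => (h G).symm)
  · intro A hA W hW h
    have h1 : VA A = ⋃ k, VA (A ∩ Set.Iio k) := by
      ext w
      constructor
      · rintro (hw | ⟨l, hl, rfl⟩)
        · exact Set.mem_iUnion.2 ⟨0, Or.inl hw⟩
        · exact Set.mem_iUnion.2 ⟨l + 1, Or.inr ⟨l, ⟨hl, Nat.lt_succ_self l⟩, rfl⟩⟩
      · intro hw
        obtain ⟨k, hw | ⟨l, hl, rfl⟩⟩ := Set.mem_iUnion.1 hw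
        · exact Or.inl hw
        · exact Or.inr ⟨l, hl.1, rfl⟩
    have hmono : Monotone fun k => VA (A ∩ Set.Iio k) := by
      rintro k l hkl w (hw | ⟨i, hi, rfl⟩)
      · exact Or.inl hw
      · exact Or.inr ⟨i, ⟨hi.1, lt_of_lt_of_le hi.2 hkl⟩, rfl⟩
    have h2 : ∀ w ∈ W, ∃ k, w ∈ vs (VA (A ∩ Set.Iio k)) := by
      intro w hw
      apply mem_vs_iUnion _ hmono
      rw [← h1]
      exact mem_vs_of_isLaw fun G _ hG => (h G).1 hG w hw
    have h3 : ∃ K, ∀ w ∈ W, w ∈ vs (VA (A ∩ Set.Iio K)) := by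
      choose! f hf using h2
      obtain ⟨K, hK⟩ := (hW.image f).bddAbove
      refine ⟨K, fun w hw => vs_mono (hmono (hK ⟨w, hw, rfl⟩)) (hf w hw)⟩
    obtain ⟨K, hK⟩ := h3
    obtain ⟨k, hkA, hk⟩ := hA.exists_gt K
    obtain ⟨G, _, h4, h5, h6⟩ := exists_test k
    have h7 : InVariety (VA (A ∩ Set.Iio K)) G :=
      inVariety_VA.2 ⟨h4, fun l hl => h5 l fun hlk => by
        have : l < K := hl.2
        omega⟩
    have h8 : InVariety W G := fun w hw => isLaw_of_mem_vs (hK w hw) h7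
    exact h6 ((inVariety_VA.1 ((h G).2 h8)).2 k hkA)

end Pool.Agent.Lib.MP_3fd305_al.Six
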